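import Pool.Agent.helper76.UF.SpecB

/-!
# Project UF (MP_37e5fa_nt), row ANI: the ideal `(D, a - z^t)` has norm `D`
-/

set_option autoImplicit false

namespace Pool.Agent.UF

open Finset Polynomial NumberField nonZeroDivisors

theorem ANI_one (h1 : QUK_stmt) (h2 : QUO_stmt) (m a D : ℕ) (K : Type) [Field K] [NumberField K]
    (z : 𝓞 K) (hz : Cyc (2 ^ m) z) (hD : 0 < D) (hDF : D ∣ a ^ (2 ^ m) + 1) :
    Nat.card (𝓞 K ⧸ Ideal.span {(D : 𝓞 K), ff a z 1}) = D := by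
  obtain ⟨hq1, hq2⟩ := h1 (2 ^ m) 1 a (𝓞 K) z Nat.one_le_two_pow le_rfl (by rw [one_mul]; exact hz)
  obtain ⟨D', hD'⟩ := hDF
  have hD'0 : (D' : ℤ) ≠ 0 := by
    intro h
    have h3 : D' = 0 := by exact_mod_cast h
    rw [h3, mul_zero] at hD'
    omega
  obtain ⟨I, hI⟩ : ∃ I : Ideal (𝓞 K), I = Ideal.span {(D : 𝓞 K), ff a z 1} := ⟨_, rfl⟩
  rw [← hI]
  have hker : ∀ n : ℤ, (n : 𝓞 K) ∈ I ↔ (D : ℤ) ∣ n := by
    intro n
    constructor
    · intro hn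
      rw [hI, Ideal.mem_span_pair] at hn
      obtain ⟨α, β, hαβ⟩ := hn
      have h3 : ff a z 1 ∣ (((D' : ℤ) * n : ℤ) : 𝓞 K) := by
        obtain ⟨γ, hγ⟩ := hq2
        refine ⟨α * γ + D' * β, ?_⟩
        have h4 : ((D : 𝓞 K)) * D' = ff a z 1 * γ := by
          rw [← hγ, hD', Nat.cast_mul]
        rw [Int.cast_mul, ← hαβ, Int.cast_natCast]
        calc (D' : 𝓞 K) * (α * D + β * ff a z 1) = α * (D * D') + D' * β * ff a z 1 := by ring
          _ = α * (ff a z 1 * γ) + D' * β * ff a z 1 := by rw [h4]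
          _ = ff a z 1 * (α * γ + D' * β) := by ring
      have h5 := hq1 _ h3
      rw [hD', Nat.cast_mul, mul_comm (D : ℤ)] at h5
      exact (mul_dvd_mul_iff_left hD'0).1 h5
    · rintro ⟨k, rfl⟩
      rw [Int.cast_mul, Int.cast_natCast]
      exact Ideal.mul_mem_right _ _ (by rw [hI]; exact Ideal.subset_span (by simp))
  obtain ⟨φ, hφ⟩ : ∃ φ : ℤ →+* 𝓞 K ⧸ I, φ = (Ideal.Quotient.mk I).comp (Int.castRingHom (𝓞 K)) :=
    ⟨_, rfl⟩
  have hsurj : Function.Surjective φ := by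
    intro q
    obtain ⟨y, rfl⟩ := Ideal.Quotient.mk_surjective q
    obtain ⟨n, hn⟩ := h2 (2 ^ m) a (𝓞 K) z hz y
    refine ⟨n, ?_⟩
    rw [hφ]
    show Ideal.Quotient.mk I ((n : ℤ) : 𝓞 K) = Ideal.Quotient.mk I y
    symm
    rw [Ideal.Quotient.eq]
    obtain ⟨w, hw⟩ := hn
    rw [hw]
    exact Ideal.mul_mem_right _ _ (by rw [hI]; exact Ideal.subset_span (by simp))
  have hk : RingHom.ker φ = Ideal.span {(D : ℤ)} := by
    ext n
    rw [RingHom.mem_ker, Ideal.mem_span_singleton, ← hker n, hφ]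
    show Ideal.Quotient.mk I ((n : ℤ) : 𝓞 K) = 0 ↔ _
    exact Ideal.Quotient.eq_zero_iff_mem
  rw [← Nat.card_congr (RingHom.quotientKerEquivOfSurjective hsurj).toEquiv,
    Nat.card_congr (Ideal.quotEquivOfEq hk).toEquiv,
    Nat.card_congr (Int.quotientSpanNatEquivZMod D).toEquiv, Nat.card_zmod]

theorem ANI (h1 : QUK_stmt) (h2 : QUO_stmt) : ANI_stmt := by
  intro m a t D K _ _ z hz ht hD hDF
  obtain ⟨s, hs⟩ := hz.2.2 t ht
  rw [Ideal.absNorm_apply, Submodule.cardQuot_apply, ← ANI_one h1 h2 m a D K z hz hD hDF]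
  symm
  have hmap : Ideal.span {((Nat.card (𝓞 K ⧸ Ideal.span {(D : 𝓞 K), ff a z 1}) : ℕ) : 𝓞 K), ff a z t} =
      Ideal.map (s : 𝓞 K →+* 𝓞 K) (Ideal.span {(D : 𝓞 K), ff a z 1}) := by
    rw [ANI_one h1 h2 m a D K z hz hD hDF, Ideal.map_span, Set.image_pair]
    congr 2
    · simp
    · unfold ff
      simp [hs]
  exact Nat.card_congr (Ideal.quotientEquiv _ _ s hmap).toEquiv

end Pool.Agent.UF
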